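import Pool.Agent.Lib.MP_688fd0_co.LIN.H68.Orient
import Pool.Agent.Lib.MP_688fd0_co.LP.Cycle

/-!
BLOCK: a window met by at most one cycle in every block.
-/

set_option autoImplicit false
set_option linter.unusedSectionVars false

namespace Pool.Agent.Lib.MP_688fd0_co.LIN.H68

open Classical
open Pool.Agent.Lib.MP_688fd0_co.LP (IsP IsPB Conn Cyc Symm cay)
open Pool.Agent.Lib.MP_688fd0_co.LP.Cycle (isPB_suffix isPB_prefix exists_last isPB_left isPB_right)
open Pool.Agent.Lib.MP_688fd0_co.LIN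

universe u

section
variable {V : Type u}

lemma exists_first {l : List V} (p : V → Prop) (h : ∃ x ∈ l, p x) :
    ∃ s b t, l = s ++ b :: t ∧ p b ∧ ∀ x ∈ s, ¬ p x := by
  induction l with
  | nil => obtain ⟨x, hx, _⟩ := h; simp at hx
  | cons a l ih =>
    by_cases h' : p a
    · exact ⟨[], a, l, rfl, h', by simp⟩
    · obtain ⟨x, hx, hp⟩ := h
      rcases List.mem_cons.1 hx with rfl | hx
      · exact absurd hp h'
      · obtain ⟨s, b, t, rfl, h1, h2⟩ := ih ⟨x, hx, hp⟩
        refine ⟨a :: s, b, t, rfl, h1, fun y hy => ?_⟩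
        rcases List.mem_cons.1 hy with rfl | hy
        · exact h'
        · exact h2 y hy

end

variable {V : Type u} [Fintype V]

lemma mem_cov {H : SimpleGraph V} {v : V} : v ∈ cov H ↔ ∃ w, H.Adj v w := by
  simp [cov]

lemma cov_of_reach {H : SimpleGraph V} {v w : V} (hv : v ∈ cov H) (h : H.Reachable v w) :
    w ∈ cov H := by
  by_cases hvw : v = w
  · exact hvw ▸ hv
  · obtain ⟨p⟩ := h.symm
    cases p with
    | nil => exact absurd rfl hvw
    | cons h1 _ => exact mem_cov.2 ⟨_, h1⟩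

/-- A path between two different cycles contains a connection. -/
lemma extract {G H : SimpleGraph V} {l : List V} (hl : IsP G l) {x y : V} (hx : l.head? = some x)
    (hy : l.getLast? = some y) (hxc : x ∈ cov H) (hyc : y ∈ cov H) (hxy : ¬ H.Reachable x y) :
    ∃ c p q, IsP G c ∧ c.head? = some p ∧ c.getLast? = some q ∧ p ∈ cov H ∧ q ∈ cov H ∧
      ¬ H.Reachable p q ∧ (∀ v ∈ c.tail.dropLast, v ∉ cov H) ∧ ∀ v ∈ c, v ∈ l := by
  have hpb : IsPB G l x y := ⟨hl, hx, hy⟩
  obtain ⟨s, p, t, rfl, hp, ht⟩ := exists_last (fun v => v ∈ cov H ∧ H.Reachable x v)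
    ⟨x, isPB_left hpb, hxc, SimpleGraph.Reachable.refl x⟩
  have h1 : IsPB G (p :: t) p y := isPB_suffix hpb
  have hyt : y ∈ t := by
    have h2 := isPB_right h1
    rcases List.mem_cons.1 h2 with rfl | h2
    · exact absurd hp.2 hxy
    · exact h2
  obtain ⟨s', q, t', rfl, hq, hs'⟩ := exists_first (fun v => v ∈ cov H) ⟨y, hyt, hyc⟩
  have h2 : IsPB G ((p :: s') ++ q :: t') p y := h1
  have h3 := isPB_prefix h2
  refine ⟨(p :: s') ++ [q], p, q, h3.1, h3.2.1, h3.2.2, hp.1, hq, ?_, ?_, ?_⟩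
  · intro h
    exact ht q (by simp) ⟨hq, hp.2.trans h⟩
  · intro v hv
    have h4 : ((p :: s') ++ [q]).tail.dropLast = s' := by simp
    rw [h4] at hv
    exact hs' v hv
  · intro v hv
    simp only [List.cons_append, List.mem_cons, List.mem_append, List.not_mem_nil, or_false] at hv ⊢
    tauto

/-- Exit points of `U` along the successor function. -/
lemma exit_arc {H : SimpleGraph V} {σ : V → V} (hadj : ∀ v ∈ cov H, H.Adj v (σ v))
    (hinj : ∀ v ∈ cov H, ∀ w ∈ cov H, σ v = σ w → v = w)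
    (hre : ∀ v ∈ cov H, ∀ w, H.Reachable v w → ∃ k, σ^[k] v = w) (U : Finset V)
    (hU : ∀ v ∈ cov H, U.card < (cyc H v).card) :
    ∃ e : V → V, (∀ p ∈ cov H, p ∈ U → e p ∉ U ∧ ∃ v ∈ U, H.Adj v (e p)) ∧
      ∀ p ∈ cov H, ∀ p' ∈ cov H, p ∈ U → p' ∈ U → p ≠ p' → e p = e p' →
        ∃ α : List V, IsArc H α ∧ α.head? = some p ∧ α.getLast? = some p' ∧
          ∀ x ∈ α, x ∈ U ∧ H.Reachable p x := by
  -- iterates
  have hit : ∀ v ∈ cov H, ∀ k, σ^[k] v ∈ cov H ∧ H.Reachable v (σ^[k] v) := by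
    intro v hv k
    induction k with
    | zero => exact ⟨hv, SimpleGraph.Reachable.refl v⟩
    | succ k ih =>
      rw [Function.iterate_succ_apply']
      have h1 := hadj _ ih.1
      have h2 := ih.2.trans h1.reachable
      exact ⟨cov_of_reach hv h2, h2⟩
  have hinj' : ∀ k, ∀ v ∈ cov H, ∀ w ∈ cov H, σ^[k] v = σ^[k] w → v = w := by
    intro k
    induction k with
    | zero => intro v _ w _ h; exact h
    | succ k ih =>
      intro v hv w hw h
      rw [Function.iterate_succ_apply', Function.iterate_succ_apply'] at h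
      exact ih v hv w hw (hinj _ (hit v hv k).1 _ (hit w hw k).1 h)
  have hex : ∀ p, p ∈ cov H → ∃ k, σ^[k] p ∉ U := by
    intro p hp
    by_contra hcon
    push Not at hcon
    have h1 : cyc H p ⊆ U := by
      intro w hw
      have : H.Reachable p w := by simpa [cyc] using hw
      obtain ⟨k, rfl⟩ := hre p hp w this
      exact hcon k
    exact absurd (Finset.card_le_card h1) (not_le.2 (hU p hp))
  let K : V → ℕ := fun p => if h : ∃ k, σ^[k] p ∉ U then Nat.find h else 0
  have hK1 : ∀ p ∈ cov H, σ^[K p] p ∉ U := by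
    intro p hp
    have h : K p = Nat.find (hex p hp) := dif_pos (hex p hp)
    rw [h]
    exact Nat.find_spec (hex p hp)
  have hK2 : ∀ p ∈ cov H, ∀ k < K p, σ^[k] p ∈ U := by
    intro p hp k hk
    have h : K p = Nat.find (hex p hp) := dif_pos (hex p hp)
    rw [h] at hk
    have := Nat.find_min (hex p hp) hk
    simpa using this
  have hK3 : ∀ p ∈ cov H, p ∈ U → 0 < K p := by
    intro p hp hpU
    rcases Nat.eq_zero_or_pos (K p) with h | h
    · have := hK1 p hp
      rw [h] at this
      exact absurd hpU this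
    · exact h
  refine ⟨fun p => σ^[K p] p, ?_, ?_⟩
  · intro p hp hpU
    refine ⟨hK1 p hp, σ^[K p - 1] p, hK2 p hp _ (by have := hK3 p hp hpU; omega), ?_⟩
    have h1 := hadj _ (hit p hp (K p - 1)).1
    rw [← Function.iterate_succ_apply' σ] at h1
    have h2 : (K p - 1).succ = K p := by have := hK3 p hp hpU; omega
    rw [h2] at h1
    exact h1
  · -- the oriented version
    have main : ∀ p ∈ cov H, ∀ p' ∈ cov H, p ∈ U → p' ∈ U → p ≠ p' → σ^[K p] p = σ^[K p'] p' →
        K p ≤ K p' → ∃ α : List V, IsArc H α ∧ α.head? = some p' ∧ α.getLast? = some p ∧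
          ∀ x ∈ α, x ∈ U ∧ H.Reachable p' x := by
      intro p hp p' hp' hpU hp'U hne he hle
      obtain ⟨m, hm⟩ : ∃ m, K p' = K p + m := ⟨K p' - K p, by omega⟩
      have h1 : p = σ^[m] p' := by
        rw [hm, Function.iterate_add_apply] at he
        exact hinj' (K p) p hp _ (hit p' hp' m).1 he
      have hm0 : m ≠ 0 := by
        rintro rfl
        exact hne h1
      have hmK : m < K p' := by have := hK3 p hp hpU; omega
      refine ⟨(List.range (m + 1)).map (fun i => σ^[i] p'), ⟨?_, ?_, ?_⟩, ?_, ?_, ?_⟩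
      · rw [List.isChain_iff_getElem]
        intro i hi
        simp only [List.length_map, List.length_range] at hi
        simp only [List.getElem_map, List.getElem_range]
        rw [Function.iterate_succ_apply']
        exact hadj _ (hit p' hp' i).1
      · refine List.Nodup.map_on ?_ List.nodup_range
        have key : ∀ i j, i < j → j ≤ m → σ^[i] p' ≠ σ^[j] p' := by
          intro i j hij hj h
          obtain ⟨d, rfl⟩ : ∃ d, j = i + d := ⟨j - i, by omega⟩
          rw [Function.iterate_add_apply] at h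
          have h2 := hinj' i p' hp' _ (hit p' hp' d).1 h
          have h3 : σ^[K p'] p' = σ^[K p' - d] p' := by
            have h4 : K p' = (K p' - d) + d := by omega
            conv_lhs => rw [h4, Function.iterate_add_apply, ← h2]
          have h5 := hK2 p' hp' (K p' - d) (by omega)
          rw [← h3] at h5
          exact hK1 p' hp' h5
        intro i hi j hj hij
        rw [List.mem_range] at hi hj
        rcases lt_trichotomy i j with h | h | h
        · exact absurd hij (key i j h (by omega))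
        · exact h
        · exact absurd hij.symm (key j i h (by omega))
      · simp only [List.length_map, List.length_range]; omega
      · rw [List.head?_map, List.head?_range]
        simp
      · rw [List.getLast?_map, List.getLast?_range]
        simp [h1]
      · intro x hx
        rw [List.mem_map] at hx
        obtain ⟨i, hi, rfl⟩ := hx
        rw [List.mem_range] at hi
        exact ⟨hK2 p' hp' i (by omega), (hit p' hp' i).2⟩
    intro p hp p' hp' hpU hp'U hne he
    rcases le_total (K p) (K p') with hle | hle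
    · obtain ⟨α, h1, h2, h3, h4⟩ := main p hp p' hp' hpU hp'U hne he hle
      have h5 : H.Reachable p' p := (h4 p (List.mem_of_mem_getLast? (by rw [h3]; rfl))).2
      refine ⟨α.reverse, ⟨?_, ?_, ?_⟩, ?_, ?_, ?_⟩
      · rw [List.isChain_reverse]
        exact h1.1.imp fun a b hab => hab.symm
      · exact List.nodup_reverse.2 h1.2.1
      · rw [List.length_reverse]; exact h1.2.2
      · rw [List.head?_reverse]; exact h3
      · rw [List.getLast?_reverse]; exact h2
      · intro x hx
        rw [List.mem_reverse] at hx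
        exact ⟨(h4 x hx).1, h5.symm.trans (h4 x hx).2⟩
    · exact main p' hp' p hp hp'U hpU hne.symm he.symm hle

/-- a sparse level -/
lemma level {X : Finset V} (h : V → ℕ) (a w m : ℕ) (hw : 1 ≤ w)
    (hX : (X.filter (fun x => a ≤ h x ∧ h x < a + w)).card ≤ m) :
    ∃ t, a ≤ t ∧ t < a + w ∧ (X.filter (fun x => h x = t)).card ≤ m / w := by
  by_contra hcon
  push Not at hcon
  have h1 : (X.filter (fun x => a ≤ h x ∧ h x < a + w)).card =
      ∑ t ∈ Finset.Ico a (a + w), ((X.filter (fun x => a ≤ h x ∧ h x < a + w)).filter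
        (fun x => h x = t)).card := by
    refine Finset.card_eq_sum_card_fiberwise fun x hx => ?_
    simp only [Finset.coe_filter, Set.mem_ofPred_eq] at hx
    simp only [Finset.coe_Ico, Set.mem_Ico]
    exact hx.2
  have h2 : ∀ t ∈ Finset.Ico a (a + w), m / w + 1 ≤
      ((X.filter (fun x => a ≤ h x ∧ h x < a + w)).filter (fun x => h x = t)).card := by
    intro t ht
    rw [Finset.mem_Ico] at ht
    have h3 : (X.filter (fun x => a ≤ h x ∧ h x < a + w)).filter (fun x => h x = t) =
        X.filter (fun x => h x = t) := by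
      ext x
      simp only [Finset.mem_filter]
      constructor
      · rintro ⟨⟨h1, _⟩, h2⟩; exact ⟨h1, h2⟩
      · rintro ⟨h1, h2⟩; exact ⟨⟨h1, by omega⟩, h2⟩
    rw [h3]
    exact hcon t ht.1 ht.2
  have h3 := Finset.sum_le_sum h2
  rw [← h1, Finset.sum_const, Nat.card_Ico, smul_eq_mul] at h3
  have h4 : a + w - a = w := by omega
  rw [h4] at h3
  have h5 := Nat.lt_mul_div_succ m (show 0 < w by omega)
  have h6 : w * (m / w + 1) ≤ m := le_trans h3 hX
  omega

theorem block (homega : OmegaStatement.{u}) (hmerge : MergeStatement.{u}) (hopt : OptStatement.{u})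
    (henum : EnumStatement.{u}) : BlockStatement.{u} := by
  intro V _ G H r w D γ l κ a hO hH hκ hl ha haD
  obtain ⟨O1, O2, O3, O4⟩ := homega V G r w D γ hO
  have hcf := hH.1
  have hw : 1 ≤ w := by have := hO.w_eq; omega
  obtain ⟨σ, hadj, hinj, hre⟩ := orient henum hcf
  set X := om G γ w D with hX
  set h : V → ℕ := fun x => G.dist (γ 0) x with hh
  set M := 4 * κ ^ 2 + 3 with hM
  have hMw : 30 * M * w = 30 * (M * w) := by ring
  have hMw3 : 3 * w ≤ M * w := Nat.mul_le_mul_right w (by omega)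
  -- the two sparse levels
  obtain ⟨t0, ht0a, ht0b, ht0⟩ := level (X := X) h a w _ hw (O3 a)
  obtain ⟨t1, ht1a, ht1b, ht1⟩ := level (X := X) h (a + 30 * M * w - w) w _ hw
    (O3 (a + 30 * M * w - w))
  rw [← hκ] at ht0 ht1
  set U := X.filter (fun x => t0 < h x ∧ h x < t1) with hU
  -- size of `U`
  have hUc : U.card ≤ (30 * M + 4) * (32 * bn G r) := by
    have h1 : U ⊆ X.filter (fun x => a ≤ h x ∧ h x ≤ a + 30 * M * w) := by
      intro x hx
      rw [hU, Finset.mem_filter] at hx
      rw [Finset.mem_filter]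
      exact ⟨hx.1, by omega, by omega⟩
    have h2 := O2 a (a + 30 * M * w) (by omega)
    have h3 : a + 30 * M * w - a + 4 * w = (30 * M + 4) * w := by
      rw [Nat.add_sub_cancel_left]; ring
    rw [h3] at h2
    have h4 : w * U.card ≤ w * ((30 * M + 4) * (32 * bn G r)) :=
      calc w * U.card ≤ w * (X.filter (fun x => a ≤ h x ∧ h x ≤ a + 30 * M * w)).card :=
            Nat.mul_le_mul_left w (Finset.card_le_card h1)
        _ ≤ (30 * M + 4) * w * (32 * bn G r) := h2
        _ = w * ((30 * M + 4) * (32 * bn G r)) := by ring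
    exact Nat.le_of_mul_le_mul_left h4 (by omega)
  have hUl : 4 * U.card + 4 ≤ l := by
    refine le_trans ?_ hl
    have : 4 * U.card ≤ 4 * ((30 * M + 4) * (32 * bn G r)) := Nat.mul_le_mul_left 4 hUc
    have h5 : 4 * ((30 * M + 4) * (32 * bn G r)) = 4 * (30 * M + 4) * (32 * bn G r) := by ring
    omega
  have hlong := ((hopt V G l).2 H hH).1
  have hUlt : ∀ v ∈ cov H, U.card < (cyc H v).card := fun v hv => by
    have := (hlong v hv).1
    omega
  obtain ⟨e, he1, he2⟩ := exit_arc hadj hinj hre U hUlt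
  set Lv := X.filter (fun x => h x = t0) ∪ X.filter (fun x => h x = t1) with hLv
  have hLvc : Lv.card ≤ 2 * κ := (Finset.card_union_le _ _).trans (by omega)
  have heL : ∀ p ∈ cov H, p ∈ U → e p ∈ Lv := by
    intro p hp hpU
    obtain ⟨h1, v, hvU, hve⟩ := he1 p hp hpU
    rw [hU, Finset.mem_filter] at hvU
    obtain ⟨hvX, hv0, hv1⟩ := hvU
    have hGa : G.Adj v (e p) := hcf.le hve
    have h2 : e p ∈ X := O1 v hvX (by change 20 * w ≤ h v; omega) (by change h v + 20 * w ≤ D; omega) _ hGa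
    have h3 : h (e p) ≤ h v + 1 := by
      have := hO.vt.conn.dist_triangle (u := γ 0) (v := v) (w := e p)
      rw [SimpleGraph.dist_eq_one_iff_adj.2 hGa] at this
      exact this
    have h4 : h v ≤ h (e p) + 1 := by
      have := hO.vt.conn.dist_triangle (u := γ 0) (v := e p) (w := v)
      rw [SimpleGraph.dist_eq_one_iff_adj.2 hGa.symm] at this
      exact this
    have h5 : ¬ (t0 < h (e p) ∧ h (e p) < t1) := fun h6 => h1 (by
      rw [hU, Finset.mem_filter]; exact ⟨h2, h6⟩)
    rw [hLv, Finset.mem_union, Finset.mem_filter, Finset.mem_filter]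
    have h7 : t0 + 1 < t1 := by omega
    by_cases h8 : h (e p) = t0
    · exact Or.inl ⟨h2, h8⟩
    · right
      refine ⟨h2, ?_⟩
      omega
  by_contra hcon
  push Not at hcon
  -- one connection in every inner window
  have hconn : ∀ j : Fin (4 * κ ^ 2 + 1), ∃ c p q, IsP G c ∧ c.head? = some p ∧
      c.getLast? = some q ∧ p ∈ cov H ∧ q ∈ cov H ∧ ¬ H.Reachable p q ∧
      (∀ v ∈ c.tail.dropLast, v ∉ cov H) ∧
      ∀ v ∈ c, v ∈ X ∧ a + 30 * ((j.1 + 1) * w) + 4 * w ≤ h v ∧
        h v ≤ a + 30 * ((j.1 + 1) * w) + 26 * w := by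
    intro j
    have hj := j.2
    have hjw : (j.1 + 1) * w + w ≤ M * w - w := by
      have : (j.1 + 3) * w ≤ M * w := Nat.mul_le_mul_right w (by omega)
      have h6 : (j.1 + 3) * w = (j.1 + 1) * w + w + w := by ring
      omega
    obtain ⟨x, hx, y, hy, hxX, hyX, hx1, hx2, hy1, hy2, hxy⟩ :=
      hcon (a + 30 * ((j.1 + 1) * w)) (by omega) (by omega)
    obtain ⟨l', hl1, hl2, hl3, hl4⟩ := O4 (a + 30 * ((j.1 + 1) * w) + 5 * w)
      (a + 30 * ((j.1 + 1) * w) + 25 * w) x hxX y hyX hx1 hy1 hx2 hy2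
    obtain ⟨c, p, q, hc1, hc2, hc3, hc4, hc5, hc6, hc7, hc8⟩ := extract hl1 hl2 hl3 hx hy hxy
    refine ⟨c, p, q, hc1, hc2, hc3, hc4, hc5, hc6, hc7, fun v hv => ?_⟩
    obtain ⟨h1, h2, h3⟩ := hl4 v (hc8 v hv)
    refine ⟨h1, ?_, ?_⟩
    · change a + 30 * ((j.1 + 1) * w) + 4 * w ≤ G.dist (γ 0) v
      omega
    · change G.dist (γ 0) v ≤ _
      omega
  choose c p q hc1 hc2 hc3 hc4 hc5 hc6 hc7 hc8 using hconn
  have hinU : ∀ j, ∀ v ∈ c j, v ∈ U := by
    intro j v hv
    obtain ⟨h1, h2, h3⟩ := hc8 j v hv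
    have hj := j.2
    have hjw : (j.1 + 1) * w + w ≤ M * w - w := by
      have : (j.1 + 3) * w ≤ M * w := Nat.mul_le_mul_right w (by omega)
      have h6 : (j.1 + 3) * w = (j.1 + 1) * w + w + w := by ring
      omega
    rw [hU, Finset.mem_filter]
    exact ⟨h1, by omega, by omega⟩
  have hpm : ∀ j, p j ∈ c j := fun j => List.mem_of_mem_head? (by rw [hc2]; rfl)
  have hqm : ∀ j, q j ∈ c j := fun j => List.mem_of_mem_getLast? (by rw [hc3]; rfl)
  -- pigeonhole
  have hcard : (Lv ×ˢ Lv).card < (Finset.univ : Finset (Fin (4 * κ ^ 2 + 1))).card := by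
    rw [Finset.card_product, Finset.card_univ, Fintype.card_fin]
    have : Lv.card * Lv.card ≤ (2 * κ) * (2 * κ) := Nat.mul_le_mul hLvc hLvc
    have h2 : (2 * κ) * (2 * κ) = 4 * κ ^ 2 := by ring
    omega
  obtain ⟨i, _, j, _, hij, hee⟩ := Finset.exists_ne_map_eq_of_card_lt_of_maps_to hcard
    (f := fun j => (e (p j), e (q j))) (fun j _ => by
      simp only [Finset.coe_product, Set.mem_prod, Finset.mem_coe]
      exact ⟨heL _ (hc4 j) (hinU j _ (hpm j)), heL _ (hc5 j) (hinU j _ (hqm j))⟩)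
  have hdis0 : ∀ i j : Fin (4 * κ ^ 2 + 1), i.1 < j.1 → List.Disjoint (c i) (c j) := by
    intro i j hij v hv hv'
    have h1 := (hc8 i v hv).2.2
    have h2 := (hc8 j v hv').2.1
    have h3 : (i.1 + 1) * w + w ≤ (j.1 + 1) * w := by
      have h4 : (i.1 + 1 + 1) * w ≤ (j.1 + 1) * w := Nat.mul_le_mul_right w (by omega)
      have h5 : (i.1 + 1 + 1) * w = (i.1 + 1) * w + w := by ring
      omega
    omega
  have hdis : List.Disjoint (c i) (c j) := by
    rcases lt_or_gt_of_ne (fun h : i.1 = j.1 => hij (Fin.ext h)) with h1 | h1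
    · exact hdis0 i j h1
    · exact (hdis0 j i h1).symm
  have hpne : p i ≠ p j := fun h1 => hdis (hpm i) (h1 ▸ hpm j)
  have hqne : q i ≠ q j := fun h1 => hdis (hqm i) (h1 ▸ hqm j)
  obtain ⟨α, hα1, hα2, hα3, hα4⟩ := he2 (p i) (hc4 i) (p j) (hc4 j) (hinU i _ (hpm i))
    (hinU j _ (hpm j)) hpne (congrArg Prod.fst hee)
  obtain ⟨β, hβ1, hβ2, hβ3, hβ4⟩ := he2 (q i) (hc5 i) (q j) (hc5 j) (hinU i _ (hqm i))
    (hinU j _ (hqm j)) hqne (congrArg Prod.snd hee)
  obtain ⟨H', hH', hphi⟩ := hmerge V G H l α β (c i) (c j) hcf hα1 hβ1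
    (fun x hx y hy hxy => hc6 i (((hα4 x hx).2.trans hxy).trans (hβ4 y hy).2.symm))
    (hc1 i) (hc1 j) (hc7 i) (hc7 j) hdis (by rw [hc2, hα2]) (by rw [hc2, hα3])
    (by rw [hc3, hβ2]) (by rw [hc3, hβ3])
  have hmax := hH.2 H' hH'
  have hαl : α.length ≤ U.card := by
    rw [← List.toFinset_card_of_nodup hα1.2.1]
    exact Finset.card_le_card fun x hx => (hα4 x (List.mem_toFinset.1 hx)).1
  have hβl : β.length ≤ U.card := by
    rw [← List.toFinset_card_of_nodup hβ1.2.1]
    exact Finset.card_le_card fun x hx => (hβ4 x (List.mem_toFinset.1 hx)).1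
  omega

end Pool.Agent.Lib.MP_688fd0_co.LIN.H68
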