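import Pool.Agent.Lib.MP_688fd0_co.LIN.Iface

/-!
Orientation of the cycles of a cycle family: a successor function.
-/

set_option autoImplicit false

namespace Pool.Agent.Lib.MP_688fd0_co.LIN.H68

open Classical
open Pool.Agent.Lib.MP_688fd0_co.LP (IsP Conn Cyc Symm cay)
open Pool.Agent.Lib.MP_688fd0_co.LIN

universe u

section
variable {V : Type u}

/-- cyclic successor in a list -/
noncomputable def nx (q : List V) (v : V) : V :=
  if h : 0 < q.length then q[(q.idxOf v + 1) % q.length]'(Nat.mod_lt _ h) else v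

lemma nx_eq {q : List V} (hn : q.Nodup) (h : 0 < q.length) (i : ℕ) :
    nx q (q[i % q.length]'(Nat.mod_lt _ h)) = q[(i + 1) % q.length]'(Nat.mod_lt _ h) := by
  unfold nx
  rw [dif_pos h]
  have h1 : q.idxOf (q[i % q.length]'(Nat.mod_lt _ h)) = i % q.length :=
    hn.idxOf_getElem _ _
  congr 1
  rw [h1, Nat.mod_add_mod]

lemma mem_iff_mod {q : List V} (h : 0 < q.length) {v : V} :
    v ∈ q ↔ ∃ i, v = q[i % q.length]'(Nat.mod_lt _ h) := by
  constructor
  · intro hv
    obtain ⟨i, hi, rfl⟩ := List.getElem_of_mem hv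
    exact ⟨i, by simp only [Nat.mod_eq_of_lt hi]⟩
  · rintro ⟨i, rfl⟩
    exact List.getElem_mem _

lemma nx_iter {q : List V} (hn : q.Nodup) (h : 0 < q.length) (i k : ℕ) :
    (nx q)^[k] (q[i % q.length]'(Nat.mod_lt _ h)) = q[(i + k) % q.length]'(Nat.mod_lt _ h) := by
  induction k with
  | zero => rfl
  | succ k ih => rw [Function.iterate_succ_apply', ih, nx_eq hn h]; rfl

lemma nx_adj {H : SimpleGraph V} {q : List V} (hc : Cyc H q) {v : V} (hv : v ∈ q) :
    H.Adj v (nx q v) := by
  obtain ⟨⟨h0, h1, h2⟩, h3, a, b, ha, hb, hab⟩ := hc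
  have hpos : 0 < q.length := by omega
  obtain ⟨i, hi, rfl⟩ := List.getElem_of_mem hv
  have e1 : q[i] = q[i % q.length]'(Nat.mod_lt _ hpos) := by simp only [Nat.mod_eq_of_lt hi]
  rw [e1, nx_eq h2 hpos]
  by_cases hi' : i + 1 < q.length
  · have e2 : q[i % q.length]'(Nat.mod_lt _ hpos) = q[i] := e1.symm
    have e3 : q[(i + 1) % q.length]'(Nat.mod_lt _ hpos) = q[i + 1] := by
      simp only [Nat.mod_eq_of_lt hi']
    rw [e2, e3]
    exact (List.isChain_iff_getElem.1 h1) i hi'
  · have hi2 : i + 1 = q.length := by omega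
    have e2 : q[i % q.length]'(Nat.mod_lt _ hpos) = b := by
      rw [← e1]
      rw [List.getLast?_eq_getElem?] at hb
      have h5 : q.length - 1 = i := by omega
      rw [h5, List.getElem?_eq_getElem hi] at hb
      exact Option.some.inj hb
    have e3 : q[(i + 1) % q.length]'(Nat.mod_lt _ hpos) = a := by
      have h6 : (i + 1) % q.length = 0 := by rw [hi2]; exact Nat.mod_self _
      simp only [h6]
      rw [List.head?_eq_getElem?, List.getElem?_eq_getElem hpos] at ha
      exact Option.some.inj ha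
    rw [e2, e3]
    exact hab

lemma nx_inj {q : List V} (hn : q.Nodup) {v w : V} (hv : v ∈ q) (hw : w ∈ q)
    (h : nx q v = nx q w) : v = w := by
  have hpos : 0 < q.length := List.length_pos_of_mem hv
  obtain ⟨i, hi, rfl⟩ := List.getElem_of_mem hv
  obtain ⟨j, hj, rfl⟩ := List.getElem_of_mem hw
  have e1 : ∀ k (hk : k < q.length), q[k] = q[k % q.length]'(Nat.mod_lt _ hpos) := fun k hk => by
    simp only [Nat.mod_eq_of_lt hk]
  rw [e1 i hi, e1 j hj, nx_eq hn hpos, nx_eq hn hpos, hn.getElem_inj_iff] at h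
  have h2 : i = j := by
    have h3 : (i + 1) ≡ (j + 1) [MOD q.length] := h
    have h4 := Nat.ModEq.add_right_cancel' 1 h3
    exact (Nat.ModEq.eq_of_lt_of_lt h4 hi hj)
  subst h2
  rfl

end

variable {V : Type u} [Fintype V]

/-- A cycle family has a successor function. -/
theorem orient (henum : EnumStatement.{u}) {G H : SimpleGraph V} (hcf : CF G H) :
    ∃ σ : V → V, (∀ v ∈ cov H, H.Adj v (σ v)) ∧
      (∀ v ∈ cov H, ∀ w ∈ cov H, σ v = σ w → v = w) ∧
      (∀ v ∈ cov H, ∀ w, H.Reachable v w → ∃ k, σ^[k] v = w) := by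
  have hE := henum V G H hcf
  let Lst : Finset V → List V := fun S =>
    if h : ∃ c : List V, Cyc H c ∧ ∀ w, w ∈ c ↔ w ∈ S then h.choose else []
  have hL : ∀ v ∈ cov H, Cyc H (Lst (cyc H v)) ∧ ∀ w, w ∈ Lst (cyc H v) ↔ H.Reachable v w := by
    intro v hv
    have h : ∃ c : List V, Cyc H c ∧ ∀ w, w ∈ c ↔ w ∈ cyc H v := by
      obtain ⟨c, h1, h2⟩ := hE v hv
      exact ⟨c, h1, fun w => by rw [h2 w]; simp [cyc]⟩
    have h1 : Lst (cyc H v) = h.choose := dif_pos h
    rw [h1]
    refine ⟨h.choose_spec.1, fun w => ?_⟩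
    rw [h.choose_spec.2 w]
    simp [cyc]
  have hcyc : ∀ v w, H.Reachable v w → cyc H v = cyc H w := by
    intro v w h
    ext x
    simp only [cyc, Finset.mem_filter, Finset.mem_univ, true_and]
    exact ⟨fun h' => h.symm.trans h', fun h' => h.trans h'⟩
  have hcov : ∀ v ∈ cov H, ∀ w, H.Reachable v w → w ∈ cov H := by
    intro v hv w h
    by_cases hvw : v = w
    · exact hvw ▸ hv
    · obtain ⟨p⟩ := h.symm
      cases p with
      | nil => exact absurd rfl hvw
      | cons h1 _ => simp only [cov, Finset.mem_filter, Finset.mem_univ, true_and]; exact ⟨_, h1⟩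
  let σ : V → V := fun v => nx (Lst (cyc H v)) v
  have hself : ∀ v ∈ cov H, v ∈ Lst (cyc H v) := fun v hv => ((hL v hv).2 v).2 (SimpleGraph.Reachable.refl v)
  have hadj : ∀ v ∈ cov H, H.Adj v (σ v) := fun v hv => nx_adj (hL v hv).1 (hself v hv)
  refine ⟨σ, hadj, ?_, ?_⟩
  · intro v hv w hw h
    have h1 : H.Reachable v w := by
      have h2 : H.Reachable v (σ v) := (hadj v hv).reachable
      have h3 : H.Reachable w (σ w) := (hadj w hw).reachable
      rw [← h] at h3
      exact h2.trans h3.symm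
    have h4 : Lst (cyc H v) = Lst (cyc H w) := by rw [hcyc v w h1]
    have h5 : nx (Lst (cyc H v)) v = nx (Lst (cyc H v)) w := by
      have : σ w = nx (Lst (cyc H v)) w := by rw [h4]
      rw [← this]; exact h
    exact nx_inj (hL v hv).1.1.2.2 (hself v hv) (((hL v hv).2 w).2 h1) h5
  · intro v hv w h
    have hc := (hL v hv).1
    have hn := hc.1.2.2
    have hpos : 0 < (Lst (cyc H v)).length := by have := hc.2.1; omega
    have hiter : ∀ k, σ^[k] v = (nx (Lst (cyc H v)))^[k] v ∧ H.Reachable v (σ^[k] v) := by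
      intro k
      induction k with
      | zero => exact ⟨rfl, SimpleGraph.Reachable.refl v⟩
      | succ k ih =>
        have h1 := hcov v hv _ ih.2
        refine ⟨?_, ?_⟩
        · rw [Function.iterate_succ_apply', Function.iterate_succ_apply', ← ih.1]
          change nx (Lst (cyc H (σ^[k] v))) _ = _
          rw [← hcyc v _ ih.2]
        · rw [Function.iterate_succ_apply']
          exact ih.2.trans (hadj _ h1).reachable
    obtain ⟨i, hi, hvi⟩ := List.getElem_of_mem (hself v hv)
    obtain ⟨j, hj, hwj⟩ := List.getElem_of_mem (((hL v hv).2 w).2 h)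
    refine ⟨j + (Lst (cyc H v)).length - i, ?_⟩
    rw [(hiter _).1]
    have e1 : v = (Lst (cyc H v))[i % (Lst (cyc H v)).length]'(Nat.mod_lt _ hpos) := by
      simp only [Nat.mod_eq_of_lt hi]; exact hvi.symm
    have key : ∀ k, (nx (Lst (cyc H v)))^[k] v =
        (Lst (cyc H v))[(i + k) % (Lst (cyc H v)).length]'(Nat.mod_lt _ hpos) := by
      intro k
      have := nx_iter hn hpos i k
      rw [← e1] at this
      exact this
    rw [key]
    have e2 : (i + (j + (Lst (cyc H v)).length - i)) % (Lst (cyc H v)).length = j := by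
      have : i + (j + (Lst (cyc H v)).length - i) = j + (Lst (cyc H v)).length := by omega
      rw [this, Nat.add_mod_right, Nat.mod_eq_of_lt hj]
    simp only [e2]
    exact hwj

end Pool.Agent.Lib.MP_688fd0_co.LIN.H68
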